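import Mathlib

set_option autoImplicit false

namespace Pool.Agent.Helper75

variable {F : Type*} [Field F]

lemma alg2 (a0 a1 x0 x1 : F) (h01 : a0 ≠ a1) (hx : x0 ≠ x1)
    (S1 : (a0 * x0 - a1 * x0) + (a1 * x1 - a0 * x1) = 0) : False := by
  have : (a0 - a1) * (x0 - x1) = 0 := by linear_combination S1
  rcases mul_eq_zero.mp this with h | h
  · exact h01 (sub_eq_zero.mp h)
  · exact hx (sub_eq_zero.mp h)

lemma alg3 (a0 a1 a2 x0 x1 x2 : F) (h01 : a0 ≠ a1) (h12 : a1 ≠ a2) (hx : x0 ≠ x1)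
    (S1 : (a0 * x0 - a1 * x0) + (a1 * x1 - a2 * x1) + (a2 * x2 - a0 * x2) = 0)
    (S2 : (a0 ^ 2 * x0 - a1 ^ 2 * x0) + (a1 ^ 2 * x1 - a2 ^ 2 * x1)
      + (a2 ^ 2 * x2 - a0 ^ 2 * x2) = 0) : False := by
  have : (a0 - a1) * (a1 - a2) * (x0 - x1) = 0 := by
    linear_combination S2 - (a2 + a0) * S1
  rcases mul_eq_zero.mp this with h | h
  · rcases mul_eq_zero.mp h with h | h
    · exact h01 (sub_eq_zero.mp h)
    · exact h12 (sub_eq_zero.mp h)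
  · exact hx (sub_eq_zero.mp h)

lemma alg4 (a0 a1 a2 a3 x0 x1 x2 x3 p0 p1 p2 p3 : F)
    (h01 : a0 ≠ a1) (h12 : a1 ≠ a2) (h23 : a2 ≠ a3) (h30 : a3 ≠ a0)
    (hx01 : x0 ≠ x1) (hx30 : x3 ≠ x0)
    (hp0 : p1 - p0 = a0 * x0 - a1 * x0) (hp1 : p2 - p1 = a1 * x1 - a2 * x1)
    (hp2 : p3 - p2 = a2 * x2 - a3 * x2) (hp3 : p0 - p3 = a3 * x3 - a0 * x3)
    (S2 : (a0 ^ 2 * x0 - a1 ^ 2 * x0) + (a1 ^ 2 * x1 - a2 ^ 2 * x1)
      + (a2 ^ 2 * x2 - a3 ^ 2 * x2) + (a3 ^ 2 * x3 - a0 ^ 2 * x3) = 0)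
    (S3 : (a0 ^ 3 * x0 - a1 ^ 3 * x0) + (a1 ^ 3 * x1 - a2 ^ 3 * x1)
      + (a2 ^ 3 * x2 - a3 ^ 3 * x2) + (a3 ^ 3 * x3 - a0 ^ 3 * x3) = 0)
    (SG : (a0 ^ 2 * x0 * (a0 * x0 + 3 * p0) - a1 ^ 2 * x0 * (a1 * x0 + 3 * p1))
      + (a1 ^ 2 * x1 * (a1 * x1 + 3 * p1) - a2 ^ 2 * x1 * (a2 * x1 + 3 * p2))
      + (a2 ^ 2 * x2 * (a2 * x2 + 3 * p2) - a3 ^ 2 * x2 * (a3 * x2 + 3 * p3))
      + (a3 ^ 2 * x3 * (a3 * x3 + 3 * p3) - a0 ^ 2 * x3 * (a0 * x3 + 3 * p0)) = 0) : False := by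
  have S1 : a0 * (x0 - x3) + a1 * (x1 - x0) + a2 * (x2 - x1) + a3 * (x3 - x2) = 0 := by
    linear_combination -hp0 - hp1 - hp2 - hp3
  have S2' : a0 ^ 2 * (x0 - x3) + a1 ^ 2 * (x1 - x0) + a2 ^ 2 * (x2 - x1)
      + a3 ^ 2 * (x3 - x2) = 0 := by linear_combination S2
  have S3' : a0 ^ 3 * (x0 - x3) + a1 ^ 3 * (x1 - x0) + a2 ^ 3 * (x2 - x1)
      + a3 ^ 3 * (x3 - x2) = 0 := by linear_combination S3
  have hd0 : x0 - x3 ≠ 0 := fun h => hx30 (sub_eq_zero.mp h).symm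
  have hd1 : x1 - x0 ≠ 0 := fun h => hx01 (sub_eq_zero.mp h).symm
  have e02 : a0 = a2 := by
    by_contra hne
    have : (a0 - a1) * (a0 - a2) * (a0 - a3) * (x0 - x3) = 0 := by
      linear_combination S3' - (a1 + a2 + a3) * S2' + (a1 * a2 + a1 * a3 + a2 * a3) * S1
    have h1 : a0 - a1 ≠ 0 := sub_ne_zero.mpr h01
    have h2' : a0 - a2 ≠ 0 := sub_ne_zero.mpr hne
    have h3 : a0 - a3 ≠ 0 := sub_ne_zero.mpr h30.symm
    exact mul_ne_zero (mul_ne_zero (mul_ne_zero h1 h2') h3) hd0 this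
  have e13 : a1 = a3 := by
    by_contra hne
    have : (a1 - a0) * (a1 - a2) * (a1 - a3) * (x1 - x0) = 0 := by
      linear_combination S3' - (a0 + a2 + a3) * S2' + (a0 * a2 + a0 * a3 + a2 * a3) * S1
    have h1 : a1 - a0 ≠ 0 := sub_ne_zero.mpr h01.symm
    have h2' : a1 - a2 ≠ 0 := sub_ne_zero.mpr h12
    have h3 : a1 - a3 ≠ 0 := sub_ne_zero.mpr hne
    exact mul_ne_zero (mul_ne_zero (mul_ne_zero h1 h2') h3) hd1 this
  subst e02 e13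
  -- `x0 - x3 + x2 - x1 = 0`
  have hx : x2 = x1 + x3 - x0 := by
    have : (a0 - a1) * (x2 - (x1 + x3 - x0)) = 0 := by linear_combination S1
    rcases mul_eq_zero.mp this with h | h
    · exact absurd (sub_eq_zero.mp h) h01
    · exact sub_eq_zero.mp h
  have q1 : p1 = p0 + (a0 * x0 - a1 * x0) := by linear_combination hp0
  have q2 : p2 = p1 + (a1 * x1 - a0 * x1) := by linear_combination hp1
  have q3 : p3 = p2 + (a0 * x2 - a1 * x2) := by linear_combination hp2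
  subst q3 q2 q1 hx
  have : (a1 - a0) ^ 3 * (x0 - x3) * (x1 - x0) = 0 := by
    linear_combination -SG
  have h1 : (a1 - a0) ^ 3 ≠ 0 := pow_ne_zero _ (sub_ne_zero.mpr h01.symm)
  exact mul_ne_zero (mul_ne_zero h1 hd0) hd1 this

/-- five points on a closed walk of length ten, two of them (at distance two) equal -/
lemma coinc5 (a0 a1 a2 a3 a4 d0 d1 d2 d3 d4 : F)
    (h01 : a0 ≠ a1) (h23 : a2 ≠ a3) (h34 : a3 ≠ a4) (h40 : a4 ≠ a0)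
    (hd1 : d1 ≠ 0) (hd3 : d3 ≠ 0) (hd4 : d4 ≠ 0)
    (S0 : d0 + d1 + d2 + d3 + d4 = 0)
    (S1 : a0 * d0 + a1 * d1 + a2 * d2 + a3 * d3 + a4 * d4 = 0)
    (S2 : a0 ^ 2 * d0 + a1 ^ 2 * d1 + a2 ^ 2 * d2 + a3 ^ 2 * d3 + a4 ^ 2 * d4 = 0)
    (S3 : a0 ^ 3 * d0 + a1 ^ 3 * d1 + a2 ^ 3 * d2 + a3 ^ 3 * d3 + a4 ^ 3 * d4 = 0)
    (h : a0 = a2) : False := by
  subst h
  by_cases h13 : a1 = a3
  · subst h13
    have : (a4 - a0) * (a4 - a1) * d4 = 0 := by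
      linear_combination S2 - (a0 + a1) * S1 + a0 * a1 * S0
    exact mul_ne_zero (mul_ne_zero (sub_ne_zero.mpr h40) (sub_ne_zero.mpr h34.symm)) hd4 this
  · by_cases h14 : a1 = a4
    · subst h14
      have : (a3 - a0) * (a3 - a1) * d3 = 0 := by
        linear_combination S2 - (a0 + a1) * S1 + a0 * a1 * S0
      exact mul_ne_zero (mul_ne_zero (sub_ne_zero.mpr h23.symm) (sub_ne_zero.mpr h34)) hd3 this
    · have : (a1 - a0) * (a1 - a3) * (a1 - a4) * d1 = 0 := by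
        linear_combination S3 - (a0 + a3 + a4) * S2 + (a0 * a3 + a0 * a4 + a3 * a4) * S1
          - a0 * a3 * a4 * S0
      exact mul_ne_zero (mul_ne_zero (mul_ne_zero (sub_ne_zero.mpr h01.symm)
        (sub_ne_zero.mpr h13)) (sub_ne_zero.mpr h14)) hd1 this

/-- five distinct points: the quadratic form does not vanish. -/
lemma distinct5 (h2 : (2 : F) ≠ 0) (a0 a1 a2 a3 a4 d0 d1 d2 d3 d4 : F)
    (h01 : a0 ≠ a1) (h02 : a0 ≠ a2) (h03 : a0 ≠ a3) (h04 : a0 ≠ a4) (h12 : a1 ≠ a2)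
    (h23 : a2 ≠ a3)
    (hd0 : d0 ≠ 0)
    (S0 : d0 + d1 + d2 + d3 + d4 = 0)
    (S1 : a0 * d0 + a1 * d1 + a2 * d2 + a3 * d3 + a4 * d4 = 0)
    (S2 : a0 ^ 2 * d0 + a1 ^ 2 * d1 + a2 ^ 2 * d2 + a3 ^ 2 * d3 + a4 ^ 2 * d4 = 0)
    (S3 : a0 ^ 3 * d0 + a1 ^ 3 * d1 + a2 ^ 3 * d2 + a3 ^ 3 * d3 + a4 ^ 3 * d4 = 0)
    (E : (a1 - a0) ^ 3 * d0 * d1 + (a2 - a0) ^ 3 * d0 * d2 + (a2 - a1) ^ 3 * d1 * d2
      + (a3 - a0) ^ 3 * d0 * d3 + (a3 - a1) ^ 3 * d1 * d3 + (a3 - a2) ^ 3 * d2 * d3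
      + (a4 - a0) ^ 3 * d0 * d4 + (a4 - a1) ^ 3 * d1 * d4 + (a4 - a2) ^ 3 * d2 * d4
      + (a4 - a3) ^ 3 * d3 * d4 = 0) : False := by
  -- the four-term form of `E`
  have E' : (a1 - a0) ^ 3 * d0 * d1 + (a2 - a0) ^ 3 * d0 * d2 + (a2 - a1) ^ 3 * d1 * d2
      - (a3 - a4) ^ 3 * d3 * d4 = 0 := by
    have R3 : (a3 - a0) ^ 3 * d0 + (a3 - a1) ^ 3 * d1 + (a3 - a2) ^ 3 * d2
        + (a3 - a4) ^ 3 * d4 = 0 := by
      linear_combination a3 ^ 3 * S0 - 3 * a3 ^ 2 * S1 + 3 * a3 * S2 - S3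
    have R4 : (a4 - a0) ^ 3 * d0 + (a4 - a1) ^ 3 * d1 + (a4 - a2) ^ 3 * d2
        + (a4 - a3) ^ 3 * d3 = 0 := by
      linear_combination a4 ^ 3 * S0 - 3 * a4 ^ 2 * S1 + 3 * a4 * S2 - S3
    linear_combination E - d3 * R3 - d4 * R4
  set u0 := (a0 - a3) * (a0 - a4) with hu0
  set u1 := (a1 - a3) * (a1 - a4) with hu1
  set u2 := (a2 - a3) * (a2 - a4) with hu2
  clear_value u0 u1 u2
  have R1 : u0 * d0 + u1 * d1 + u2 * d2 = 0 := by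
    rw [hu0, hu1, hu2]
    linear_combination S2 - (a3 + a4) * S1 + a3 * a4 * S0
  have R2 : a0 * (u0 * d0) + a1 * (u1 * d1) + a2 * (u2 * d2) = 0 := by
    rw [hu0, hu1, hu2]
    linear_combination S3 - (a3 + a4) * S2 + a3 * a4 * S1
  have n12 : a1 - a2 ≠ 0 := sub_ne_zero.mpr h12
  obtain ⟨κ, hκ⟩ : ∃ κ, u0 * d0 = κ * (a1 - a2) := ⟨u0 * d0 / (a1 - a2), by field_simp⟩
  have e1 : u1 * d1 = κ * (a2 - a0) := by
    have : (a1 - a2) * (u1 * d1 - κ * (a2 - a0)) = 0 := by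
      linear_combination R2 - a2 * R1 + (a2 - a0) * hκ
    rcases mul_eq_zero.mp this with h | h
    · exact absurd h n12
    · exact sub_eq_zero.mp h
  have e2 : u2 * d2 = κ * (a0 - a1) := by linear_combination R1 - hκ - e1
  -- the last two weights
  have w3 : (a3 - a0) * (a3 - a1) * (a3 - a2) * (a3 - a4) * d3
      = -κ * ((a0 - a1) * (a1 - a2) * (a2 - a0)) := by
    have : (a3 - a0) * (a3 - a1) * (a3 - a4) * d3
        + (a2 - a0) * (a2 - a1) * (a2 - a4) * d2 = 0 := by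
      linear_combination S3 - (a0 + a1 + a4) * S2 + (a0 * a1 + a0 * a4 + a1 * a4) * S1
        - a0 * a1 * a4 * S0
    rw [hu2] at e2
    linear_combination (a3 - a2) * this + (a2 - a0) * (a2 - a1) * e2
  have w4 : (a4 - a0) * (a4 - a1) * (a4 - a2) * (a4 - a3) * d4
      = -κ * ((a0 - a1) * (a1 - a2) * (a2 - a0)) := by
    have : (a4 - a0) * (a4 - a1) * (a4 - a3) * d4
        + (a2 - a0) * (a2 - a1) * (a2 - a3) * d2 = 0 := by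
      linear_combination S3 - (a0 + a1 + a3) * S2 + (a0 * a1 + a0 * a3 + a1 * a3) * S1
        - a0 * a1 * a3 * S0
    rw [hu2] at e2
    linear_combination (a4 - a2) * this + (a2 - a0) * (a2 - a1) * e2
  -- `w3 * w4`
  have w34 : (a3 - a4) ^ 2 * (u0 * u1 * u2) * (d3 * d4)
      = -(κ * ((a0 - a1) * (a1 - a2) * (a2 - a0))) ^ 2 := by
    have : ((a3 - a0) * (a3 - a1) * (a3 - a2) * (a3 - a4) * d3)
        * ((a4 - a0) * (a4 - a1) * (a4 - a2) * (a4 - a3) * d4)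
        = (-κ * ((a0 - a1) * (a1 - a2) * (a2 - a0)))
          * (-κ * ((a0 - a1) * (a1 - a2) * (a2 - a0))) := by rw [w3, w4]
    rw [hu0, hu1, hu2]
    linear_combination -this
  have hκ0 : κ ≠ 0 := by
    intro h
    rw [h, zero_mul] at hκ
    rcases mul_eq_zero.mp hκ with h | h
    · rw [hu0] at h
      exact mul_ne_zero (sub_ne_zero.mpr h03) (sub_ne_zero.mpr h04) h
    · exact hd0 h
  have fin : 2 * (κ ^ 2 * ((a0 - a1) * (a1 - a2) * (a2 - a0)) * ((a0 - a1) * (a1 - a2)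
      * (a2 - a3) * (a0 - a4))) = 0 := by
    have t1 : (u0 * d0) * (u1 * d1) = (κ * (a1 - a2)) * (κ * (a2 - a0)) := by rw [hκ, e1]
    have t2 : (u0 * d0) * (u2 * d2) = (κ * (a1 - a2)) * (κ * (a0 - a1)) := by rw [hκ, e2]
    have t3 : (u1 * d1) * (u2 * d2) = (κ * (a2 - a0)) * (κ * (a0 - a1)) := by rw [e1, e2]
    have key : (a1 - a0) ^ 3 * u2 * ((κ * (a1 - a2)) * (κ * (a2 - a0)))
        + (a2 - a0) ^ 3 * u1 * ((κ * (a1 - a2)) * (κ * (a0 - a1)))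
        + (a2 - a1) ^ 3 * u0 * ((κ * (a2 - a0)) * (κ * (a0 - a1)))
        + (a3 - a4) * (κ * ((a0 - a1) * (a1 - a2) * (a2 - a0))) ^ 2 = 0 := by
      rw [← t1, ← t2, ← t3]
      linear_combination (u0 * u1 * u2) * E' + (a3 - a4) * w34
    rw [hu0, hu1, hu2] at key
    linear_combination key
  have hne : (2 : F) * (κ ^ 2 * ((a0 - a1) * (a1 - a2) * (a2 - a0)) * ((a0 - a1) * (a1 - a2)
      * (a2 - a3) * (a0 - a4))) ≠ 0 := by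
    have g1 := sub_ne_zero.mpr h01
    have g2 := sub_ne_zero.mpr h12
    have g3 := sub_ne_zero.mpr h02.symm
    have g4 := sub_ne_zero.mpr h23
    have g5 := sub_ne_zero.mpr h04
    exact mul_ne_zero h2 (mul_ne_zero (mul_ne_zero (pow_ne_zero 2 hκ0)
      (mul_ne_zero (mul_ne_zero g1 g2) g3)) (mul_ne_zero (mul_ne_zero (mul_ne_zero g1 g2) g4) g5))
  exact hne fin

lemma alg5 (h2 : (2 : F) ≠ 0) (a0 a1 a2 a3 a4 x0 x1 x2 x3 x4 p0 p1 p2 p3 p4 : F)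
    (h01 : a0 ≠ a1) (h12 : a1 ≠ a2) (h23 : a2 ≠ a3) (h34 : a3 ≠ a4) (h40 : a4 ≠ a0)
    (hx01 : x0 ≠ x1) (hx12 : x1 ≠ x2) (hx23 : x2 ≠ x3) (hx34 : x3 ≠ x4) (hx40 : x4 ≠ x0)
    (hp0 : p1 - p0 = a0 * x0 - a1 * x0) (hp1 : p2 - p1 = a1 * x1 - a2 * x1)
    (hp2 : p3 - p2 = a2 * x2 - a3 * x2) (hp3 : p4 - p3 = a3 * x3 - a4 * x3)
    (hp4 : p0 - p4 = a4 * x4 - a0 * x4)
    (S2 : (a0 ^ 2 * x0 - a1 ^ 2 * x0) + (a1 ^ 2 * x1 - a2 ^ 2 * x1)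
      + (a2 ^ 2 * x2 - a3 ^ 2 * x2) + (a3 ^ 2 * x3 - a4 ^ 2 * x3)
      + (a4 ^ 2 * x4 - a0 ^ 2 * x4) = 0)
    (S3 : (a0 ^ 3 * x0 - a1 ^ 3 * x0) + (a1 ^ 3 * x1 - a2 ^ 3 * x1)
      + (a2 ^ 3 * x2 - a3 ^ 3 * x2) + (a3 ^ 3 * x3 - a4 ^ 3 * x3)
      + (a4 ^ 3 * x4 - a0 ^ 3 * x4) = 0)
    (SG : (a0 ^ 2 * x0 * (a0 * x0 + 3 * p0) - a1 ^ 2 * x0 * (a1 * x0 + 3 * p1))
      + (a1 ^ 2 * x1 * (a1 * x1 + 3 * p1) - a2 ^ 2 * x1 * (a2 * x1 + 3 * p2))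
      + (a2 ^ 2 * x2 * (a2 * x2 + 3 * p2) - a3 ^ 2 * x2 * (a3 * x2 + 3 * p3))
      + (a3 ^ 2 * x3 * (a3 * x3 + 3 * p3) - a4 ^ 2 * x3 * (a4 * x3 + 3 * p4))
      + (a4 ^ 2 * x4 * (a4 * x4 + 3 * p4) - a0 ^ 2 * x4 * (a0 * x4 + 3 * p0)) = 0) : False := by
  have T0 : (x0 - x4) + (x1 - x0) + (x2 - x1) + (x3 - x2) + (x4 - x3) = 0 := by ring
  have T1 : a0 * (x0 - x4) + a1 * (x1 - x0) + a2 * (x2 - x1) + a3 * (x3 - x2)
      + a4 * (x4 - x3) = 0 := by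
    linear_combination -hp0 - hp1 - hp2 - hp3 - hp4
  have T2 : a0 ^ 2 * (x0 - x4) + a1 ^ 2 * (x1 - x0) + a2 ^ 2 * (x2 - x1) + a3 ^ 2 * (x3 - x2)
      + a4 ^ 2 * (x4 - x3) = 0 := by
    linear_combination S2
  have T3 : a0 ^ 3 * (x0 - x4) + a1 ^ 3 * (x1 - x0) + a2 ^ 3 * (x2 - x1) + a3 ^ 3 * (x3 - x2)
      + a4 ^ 3 * (x4 - x3) = 0 := by
    linear_combination S3
  have E : (a1 - a0) ^ 3 * (x0 - x4) * (x1 - x0) + (a2 - a0) ^ 3 * (x0 - x4) * (x2 - x1)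
      + (a2 - a1) ^ 3 * (x1 - x0) * (x2 - x1)
      + (a3 - a0) ^ 3 * (x0 - x4) * (x3 - x2) + (a3 - a1) ^ 3 * (x1 - x0) * (x3 - x2)
      + (a3 - a2) ^ 3 * (x2 - x1) * (x3 - x2)
      + (a4 - a0) ^ 3 * (x0 - x4) * (x4 - x3) + (a4 - a1) ^ 3 * (x1 - x0) * (x4 - x3)
      + (a4 - a2) ^ 3 * (x2 - x1) * (x4 - x3)
      + (a4 - a3) ^ 3 * (x3 - x2) * (x4 - x3) = 0 := by
    have q1 : p1 = p0 + (a0 * x0 - a1 * x0) := by linear_combination hp0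
    have q2 : p2 = p1 + (a1 * x1 - a2 * x1) := by linear_combination hp1
    have q3 : p3 = p2 + (a2 * x2 - a3 * x2) := by linear_combination hp2
    have q4 : p4 = p3 + (a3 * x3 - a4 * x3) := by linear_combination hp3
    rw [q1] at q2
    rw [q2] at q3
    rw [q3] at q4
    rw [q1, q2, q3, q4] at SG
    linear_combination (-2) * SG - 2 * x4 * T3 + 6 * (p0 + a0 * x4) * T2
      + 3 * (a0 * (x0 - x4) + a1 * (x1 - x0) + a2 * (x2 - x1) + a3 * (x3 - x2)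
      + a4 * (x4 - x3)) * T2
  have d0 : x0 - x4 ≠ 0 := sub_ne_zero.mpr hx40.symm
  have d1 : x1 - x0 ≠ 0 := sub_ne_zero.mpr hx01.symm
  have d2 : x2 - x1 ≠ 0 := sub_ne_zero.mpr hx12.symm
  have d3 : x3 - x2 ≠ 0 := sub_ne_zero.mpr hx23.symm
  have d4 : x4 - x3 ≠ 0 := sub_ne_zero.mpr hx34.symm
  by_cases c02 : a0 = a2
  · exact coinc5 a0 a1 a2 a3 a4 (x0 - x4) (x1 - x0) (x2 - x1) (x3 - x2) (x4 - x3)
      h01 h23 h34 h40 d1 d3 d4 (by linear_combination T0) (by linear_combination T1)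
      (by linear_combination T2) (by linear_combination T3) c02
  by_cases c13 : a1 = a3
  · exact coinc5 a1 a2 a3 a4 a0 (x1 - x0) (x2 - x1) (x3 - x2) (x4 - x3) (x0 - x4)
      h12 h34 h40 h01 d2 d4 d0 (by linear_combination T0) (by linear_combination T1)
      (by linear_combination T2) (by linear_combination T3) c13
  by_cases c24 : a2 = a4
  · exact coinc5 a2 a3 a4 a0 a1 (x2 - x1) (x3 - x2) (x4 - x3) (x0 - x4) (x1 - x0)
      h23 h40 h01 h12 d3 d0 d1 (by linear_combination T0) (by linear_combination T1)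
      (by linear_combination T2) (by linear_combination T3) c24
  by_cases c30 : a3 = a0
  · exact coinc5 a3 a4 a0 a1 a2 (x3 - x2) (x4 - x3) (x0 - x4) (x1 - x0) (x2 - x1)
      h34 h01 h12 h23 d4 d1 d2 (by linear_combination T0) (by linear_combination T1)
      (by linear_combination T2) (by linear_combination T3) c30
  by_cases c41 : a4 = a1
  · exact coinc5 a4 a0 a1 a2 a3 (x4 - x3) (x0 - x4) (x1 - x0) (x2 - x1) (x3 - x2)
      h40 h12 h23 h34 d0 d2 d3 (by linear_combination T0) (by linear_combination T1)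
      (by linear_combination T2) (by linear_combination T3) c41
  exact distinct5 h2 a0 a1 a2 a3 a4 _ _ _ _ _ h01 c02 (fun h => c30 h.symm) h40.symm h12 h23
    d0 T0 T1 T2 T3 E

end Pool.Agent.Helper75
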