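import Mathlib

set_option autoImplicit false

namespace Pool.Agent.Helper75

open SimpleGraph

/-- `NoClosed G L`: the graph `G` has no closed non-backtracking walk of length `L`
(given as an `L`-periodic sequence of vertices). -/
def NoClosed {V : Type*} (G : SimpleGraph V) (L : ℕ) : Prop :=
  ∀ c : ℕ → V, (∀ i, c (i + L) = c i) → (∀ i, G.Adj (c i) (c (i + 1))) →
    (∀ i, c i ≠ c (i + 2)) → False

lemma le_egirth_of_noClosed {V : Type*} (G : SimpleGraph V) (m : ℕ)
    (h : ∀ L, 3 ≤ L → L < m → NoClosed G L) : (m : ℕ∞) ≤ G.egirth := by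
  rw [le_egirth]
  intro a w hw
  by_contra hlt
  have hlt' : w.length < m := by
    have := not_le.mp hlt
    exact_mod_cast this
  have h3 : 3 ≤ w.length := hw.three_le_length
  set L := w.length with hL
  have hLpos : 0 < L := by omega
  have hinj := hw.getVert_injOn'
  have key : ∀ i, i < L → G.Adj (w.getVert i) (w.getVert (i + 1)) := by
    intro i hi
    exact w.adj_getVert_succ (by omega)
  have hend : w.getVert L = w.getVert 0 := by
    rw [hL, w.getVert_length, w.getVert_zero]
  refine h L h3 hlt' (fun i => w.getVert (i % L)) ?_ ?_ ?_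
  · intro i; simp
  · intro i
    have hi : i % L < L := Nat.mod_lt _ hLpos
    have := key (i % L) hi
    rcases Nat.lt_or_ge (i % L + 1) L with h1 | h1
    · have e : (i + 1) % L = i % L + 1 := by
        rw [Nat.add_mod, Nat.mod_eq_of_lt (show 1 < L by omega), Nat.mod_eq_of_lt h1]
      simpa [e] using this
    · have e0 : i % L + 1 = L := by omega
      have e : (i + 1) % L = 0 := by
        rw [Nat.add_mod, Nat.mod_eq_of_lt (show 1 < L by omega), e0, Nat.mod_self]
      simp only [e]
      rw [e0, hend] at this
      exact this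
  · intro i heq
    have hi : i % L < L := Nat.mod_lt _ hLpos
    have hi2 : (i + 2) % L < L := Nat.mod_lt _ hLpos
    have e := hinj (by simp; omega) (by simp; omega) heq
    have hmod : (i + 2) % L = (i % L + 2 % L) % L := Nat.add_mod _ _ _
    have h2 : 2 % L = 2 := Nat.mod_eq_of_lt (by omega)
    rw [h2] at hmod
    rcases Nat.lt_or_ge (i % L + 2) L with h1 | h1
    · rw [Nat.mod_eq_of_lt h1] at hmod; omega
    · have : (i % L + 2) % L = i % L + 2 - L := by
        rw [Nat.mod_eq_sub_mod h1, Nat.mod_eq_of_lt (by omega)]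
      omega

lemma noClosed_sum {V W : Type*} (G : SimpleGraph V) (H : SimpleGraph W) (L : ℕ)
    (hG : NoClosed G L) (hH : NoClosed H L) : NoClosed (G.sum H) L := by
  intro c hper hadj hnb
  rcases h0 : c 0 with v | w
  · have hall : ∀ i, ∃ v, c i = Sum.inl v := by
      intro i
      induction i with
      | zero => exact ⟨v, h0⟩
      | succ n ih =>
        obtain ⟨u, hu⟩ := ih
        have := hadj n
        rw [hu] at this
        rcases hc : c (n + 1) with z | z
        · exact ⟨z, rfl⟩
        · rw [hc] at this; simp at this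
    choose f hf using hall
    refine hG f ?_ ?_ ?_
    · intro i
      have := hper i
      rw [hf, hf] at this
      exact Sum.inl_injective this
    · intro i
      have := hadj i
      rw [hf, hf] at this
      simpa using this
    · intro i hi
      exact hnb i (by rw [hf, hf, hi])
  · have hall : ∀ i, ∃ v, c i = Sum.inr v := by
      intro i
      induction i with
      | zero => exact ⟨w, h0⟩
      | succ n ih =>
        obtain ⟨u, hu⟩ := ih
        have := hadj n
        rw [hu] at this
        rcases hc : c (n + 1) with z | z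
        · rw [hc] at this; simp at this
        · exact ⟨z, rfl⟩
    choose f hf using hall
    refine hH f ?_ ?_ ?_
    · intro i
      have := hper i
      rw [hf, hf] at this
      exact Sum.inr_injective this
    · intro i
      have := hadj i
      rw [hf, hf] at this
      simpa using this
    · intro i hi
      exact hnb i (by rw [hf, hf, hi])

lemma noClosed_of_iso {V W : Type*} {G : SimpleGraph V} {H : SimpleGraph W} (e : G ≃g H) (L : ℕ)
    (hG : NoClosed G L) : NoClosed H L := by
  intro c hper hadj hnb
  refine hG (fun i => e.symm (c i)) ?_ ?_ ?_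
  · intro i; simp [hper i]
  · intro i
    exact e.symm.map_adj_iff.mpr (hadj i)
  · intro i hi
    exact hnb i (e.symm.injective hi)

/-- Every vertex of `G` has exactly `d` neighbours (cardinality version). -/
def RegN {V : Type*} (G : SimpleGraph V) (d : ℕ) : Prop :=
  ∀ v, Nat.card (G.neighborSet v) = d

lemma regN_sum {V W : Type*} (G : SimpleGraph V) (H : SimpleGraph W) (d : ℕ)
    (hG : RegN G d) (hH : RegN H d) : RegN (G.sum H) d := by
  rintro (v | w)
  · rw [← hG v]
    refine Nat.card_congr (Equiv.symm ?_)
    refine Equiv.ofBijective (fun x : G.neighborSet v =>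
      (⟨Sum.inl x.1, (sum_adj_inl (G := G) (H := H)).mpr x.2⟩ :
        (G.sum H).neighborSet (Sum.inl v))) ⟨?_, ?_⟩
    · intro x y hxy
      exact Subtype.ext (Sum.inl_injective (congrArg Subtype.val hxy))
    · rintro ⟨x | x, hx⟩
      · exact ⟨⟨x, by simpa using hx⟩, rfl⟩
      · simp at hx
  · rw [← hH w]
    refine Nat.card_congr (Equiv.symm ?_)
    refine Equiv.ofBijective (fun x : H.neighborSet w =>
      (⟨Sum.inr x.1, (sum_adj_inr (G := G) (H := H)).mpr x.2⟩ :
        (G.sum H).neighborSet (Sum.inr w))) ⟨?_, ?_⟩
    · intro x y hxy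
      exact Subtype.ext (Sum.inr_injective (congrArg Subtype.val hxy))
    · rintro ⟨x | x, hx⟩
      · simp at hx
      · exact ⟨⟨x, by simpa using hx⟩, rfl⟩

lemma regN_of_iso {V W : Type*} {G : SimpleGraph V} {H : SimpleGraph W} (e : G ≃g H) (d : ℕ)
    (hG : RegN G d) : RegN H d := by
  intro v
  rw [← hG (e.symm v)]
  refine Nat.card_congr ?_
  exact (e.symm.mapNeighborSet v)

/-- transport to `Fin n`. -/
lemma exists_fin {W : Type*} [Finite W] (G : SimpleGraph W) (n d m : ℕ) (hn : Nat.card W = n)
    (hreg : RegN G d) (hL : ∀ L, 3 ≤ L → L < m → NoClosed G L) :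
    ∃ H : SimpleGraph (Fin n), RegN H d ∧ (m : ℕ∞) ≤ H.egirth := by
  subst hn
  let e : W ≃ Fin (Nat.card W) := Finite.equivFin W
  let H : SimpleGraph (Fin (Nat.card W)) := G.map e.toEmbedding
  let f : G ≃g H := SimpleGraph.Iso.map e G
  exact ⟨H, regN_of_iso f d hreg, le_egirth_of_noClosed H m
    (fun L h1 h2 => noClosed_of_iso f L (hL L h1 h2))⟩

end Pool.Agent.Helper75
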