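import Pool.Agent.Helper75.GirthLift

set_option autoImplicit false

namespace Pool.Agent.Helper75

open SimpleGraph Finset

/-- the closing sum of a closed walk of length `2r` -/
def closeSum {s Q : ℕ} (v : ZMod s → ZMod s → ZMod Q → ℤ) (r : ℕ) (a x : ℕ → ZMod s)
    (p : ℕ → ZMod Q) : ℤ :=
  ∑ t ∈ range r, (v (a t) (x t) (p t) - v (a (t + 1)) (x t) (p (t + 1)))

lemma lift_noClosed {s Q : ℕ} (D : LiftData s Q) (d N r : ℕ)
    (h : ∀ (a x : ℕ → ZMod s) (p : ℕ → ZMod Q), (∀ t, a (t + r) = a t) →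
      (∀ t, x (t + r) = x t) → (∀ t, p (t + r) = p t) → (∀ t, a t ≠ a (t + 1)) →
      (∀ t, x t ≠ x (t + 1)) →
      (∀ t, p (t + 1) - p t = D.lam (a t) (x t) - D.lam (a (t + 1)) (x t)) →
      ((closeSum D.v r a x p : ℤ) : ZMod N) = 0 → False) :
    NoClosed (bip (D.R d N)) (2 * r) := by
  apply bip_noClosed_even
  intro u w hu hw h1 h2 hnu hnw
  have hp : ∀ t, (u (t + 1)).2.1 - (u t).2.1
      = D.lam (u t).1 (w t).1 - D.lam (u (t + 1)).1 (w t).1 := by
    intro t
    obtain ⟨_, e1, _⟩ := h1 t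
    obtain ⟨_, e2, _⟩ := h2 t
    have : (u t).2.1 + D.lam (u t).1 (w t).1 = (u (t + 1)).2.1 + D.lam (u (t + 1)).1 (w t).1 := by
      rw [← e1, ← e2]
    linear_combination (-1 : ZMod Q) * this
  have hi : ∀ t, (u (t + 1)).2.2 - (u t).2.2
      = ((D.v (u t).1 (w t).1 (u t).2.1 - D.v (u (t + 1)).1 (w t).1 (u (t + 1)).2.1 : ℤ) :
          ZMod N) := by
    intro t
    obtain ⟨_, _, e1⟩ := h1 t
    obtain ⟨_, _, e2⟩ := h2 t
    have : (u t).2.2 + ((D.v (u t).1 (w t).1 (u t).2.1 : ℤ) : ZMod N)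
        = (u (t + 1)).2.2 + ((D.v (u (t + 1)).1 (w t).1 (u (t + 1)).2.1 : ℤ) : ZMod N) := by
      rw [← e1, ← e2]
    push_cast
    linear_combination (-1 : ZMod N) * this
  refine h (fun t => (u t).1) (fun t => (w t).1) (fun t => (u t).2.1) ?_ ?_ ?_ ?_ ?_ hp ?_
  · intro t; simp only [hu t]
  · intro t; simp only [hw t]
  · intro t; simp only [hu t]
  · intro t ht
    have ht : (u t).1 = (u (t + 1)).1 := ht
    have e1 : (u (t + 1)).2.1 = (u t).2.1 := by
      have := hp t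
      rw [ht] at this
      simpa [sub_eq_zero] using this
    have e2 : (u (t + 1)).2.2 = (u t).2.2 := by
      have := hi t
      rw [ht, e1] at this
      simpa [sub_eq_zero] using this
    exact hnu t (Prod.ext ht (Prod.ext e1.symm e2.symm))
  · intro t ht
    have ht : (w t).1 = (w (t + 1)).1 := ht
    obtain ⟨_, e1, e2⟩ := h2 t
    obtain ⟨_, e3, e4⟩ := h1 (t + 1)
    refine hnw t (Prod.ext ht (Prod.ext ?_ ?_))
    · rw [e1, e3, ht]
    · rw [e2, e4, ht]
  · unfold closeSum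
    rw [Int.cast_sum]
    have : ∀ t ∈ range r, (((D.v (u t).1 (w t).1 (u t).2.1
        - D.v (u (t + 1)).1 (w t).1 (u (t + 1)).2.1 : ℤ)) : ZMod N)
        = (fun t => (u t).2.2) (t + 1) - (fun t => (u t).2.2) t := by
      intro t _
      rw [← hi t]
    refine (Finset.sum_congr rfl this).trans
      ((Finset.sum_range_sub (fun t => (u t).2.2) r).trans ?_)
    have := hu 0
    rw [zero_add] at this
    simp [this]

/-- if all voltages lie in `[0, V]` and `r * V < N`, the closing sum vanishes over `ℤ`. -/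
lemma closeSum_eq_zero {s Q : ℕ} (v : ZMod s → ZMod s → ZMod Q → ℤ) (r N : ℕ) (V : ℤ)
    (a x : ℕ → ZMod s) (p : ℕ → ZMod Q) (h0 : ∀ a x p, 0 ≤ v a x p) (hV : ∀ a x p, v a x p ≤ V)
    (hN : r * V < N) (h : ((closeSum v r a x p : ℤ) : ZMod N) = 0) : closeSum v r a x p = 0 := by
  have hdvd : (N : ℤ) ∣ closeSum v r a x p := (ZMod.intCast_zmod_eq_zero_iff_dvd _ _).mp h
  apply Int.eq_zero_of_abs_lt_dvd hdvd
  have : |closeSum v r a x p| ≤ ∑ t ∈ range r, V := by
    unfold closeSum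
    refine (Finset.abs_sum_le_sum_abs _ _).trans (Finset.sum_le_sum ?_)
    intro t _
    rw [abs_le]
    constructor
    · linarith [h0 (a t) (x t) (p t), hV (a (t + 1)) (x t) (p (t + 1))]
    · linarith [h0 (a (t + 1)) (x t) (p (t + 1)), hV (a t) (x t) (p t)]
  rw [Finset.sum_const, card_range, nsmul_eq_mul] at this
  exact lt_of_le_of_lt this hN

/-- bound for a closing sum -/
lemma abs_closeSum_le {s Q : ℕ} (v : ZMod s → ZMod s → ZMod Q → ℤ) (r : ℕ) (V : ℤ)
    (a x : ℕ → ZMod s) (p : ℕ → ZMod Q) (h0 : ∀ a x p, 0 ≤ v a x p)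
    (hV : ∀ a x p, v a x p ≤ V) : |closeSum v r a x p| ≤ r * V := by
  have : |closeSum v r a x p| ≤ ∑ t ∈ range r, V := by
    unfold closeSum
    refine (Finset.abs_sum_le_sum_abs _ _).trans (Finset.sum_le_sum ?_)
    intro t _
    rw [abs_le]
    constructor
    · linarith [h0 (a t) (x t) (p t), hV (a (t + 1)) (x t) (p (t + 1))]
    · linarith [h0 (a (t + 1)) (x t) (p (t + 1)), hV (a t) (x t) (p t)]
  rwa [Finset.sum_const, card_range, nsmul_eq_mul] at this

lemma closeSum_add_mul {s Q : ℕ} (f g : ZMod s → ZMod s → ZMod Q → ℤ) (B : ℤ) (r : ℕ)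
    (a x : ℕ → ZMod s) (p : ℕ → ZMod Q) :
    closeSum (fun a x p => f a x p + B * g a x p) r a x p
      = closeSum f r a x p + B * closeSum g r a x p := by
  unfold closeSum
  rw [Finset.mul_sum, ← Finset.sum_add_distrib]
  refine Finset.sum_congr rfl fun t _ => ?_
  ring

lemma digits {D E B : ℤ} (h : D + B * E = 0) (hD : |D| < B) : D = 0 ∧ E = 0 := by
  have hB : 0 < B := lt_of_le_of_lt (abs_nonneg _) hD
  have h1 : D = 0 := by
    apply Int.eq_zero_of_abs_lt_dvd (m := B) _ hD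
    exact ⟨-E, by linarith⟩
  refine ⟨h1, ?_⟩
  rw [h1, zero_add] at h
  rcases mul_eq_zero.mp h with h2 | h2
  · omega
  · exact h2

/-- value of an element of `ZMod q` as an integer in `[0, q)`. -/
def zv {q : ℕ} (y : ZMod q) : ℤ := (y.val : ℤ)

lemma zv_nonneg {q : ℕ} (y : ZMod q) : 0 ≤ zv y := Int.natCast_nonneg _

lemma zv_le {q : ℕ} [NeZero q] (y : ZMod q) : zv y ≤ (q : ℤ) - 1 := by
  have := ZMod.val_lt y
  unfold zv
  omega

lemma zv_cast {q : ℕ} [NeZero q] (y : ZMod q) : ((zv y : ℤ) : ZMod q) = y := by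
  unfold zv
  simp

lemma closeSum_cast {s Q q : ℕ} [NeZero q] (F : ZMod s → ZMod s → ZMod Q → ZMod q) (r : ℕ)
    (a x : ℕ → ZMod s) (p : ℕ → ZMod Q)
    (h : closeSum (fun a x p => zv (F a x p)) r a x p = 0) :
    ∑ t ∈ range r, (F (a t) (x t) (p t) - F (a (t + 1)) (x t) (p (t + 1))) = 0 := by
  have := congrArg (Int.cast : ℤ → ZMod q) h
  unfold closeSum at this
  rw [Int.cast_sum] at this
  simp only [Int.cast_sub, zv_cast, Int.cast_zero] at this
  exact this

end Pool.Agent.Helper75
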