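import Pool.Agent.Helper75.GirthCore
import Pool.Agent.Helper75.GirthAlg

set_option autoImplicit false

namespace Pool.Agent.Helper75

open SimpleGraph Finset

section seq
variable {F : Type*} [Field F]

lemma seq2 (α ξ : ℕ → F) (hα : ∀ t, α (t + 2) = α t) (hα' : ∀ t, α t ≠ α (t + 1))
    (hξ' : ∀ t, ξ t ≠ ξ (t + 1))
    (S1 : ∑ t ∈ range 2, (α t * ξ t - α (t + 1) * ξ t) = 0) : False := by
  simp only [sum_range_succ, sum_range_zero, zero_add] at S1
  have e : α (1 + 1) = α 0 := hα 0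
  rw [e] at S1
  exact alg2 (α 0) (α 1) (ξ 0) (ξ 1) (hα' 0) (hξ' 0) S1

lemma seq3 (α ξ : ℕ → F) (hα : ∀ t, α (t + 3) = α t) (hα' : ∀ t, α t ≠ α (t + 1))
    (hξ' : ∀ t, ξ t ≠ ξ (t + 1))
    (S1 : ∑ t ∈ range 3, (α t * ξ t - α (t + 1) * ξ t) = 0)
    (S2 : ∑ t ∈ range 3, (α t ^ 2 * ξ t - α (t + 1) ^ 2 * ξ t) = 0) : False := by
  simp only [sum_range_succ, sum_range_zero, zero_add] at S1 S2
  have e : α (2 + 1) = α 0 := hα 0
  have e' : α (1 + 1) = α 2 := rfl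
  rw [e, e'] at S1 S2
  exact alg3 (α 0) (α 1) (α 2) (ξ 0) (ξ 1) (ξ 2) (hα' 0) (hα' 1) (hξ' 0) S1 S2

lemma seq4 (α ξ π : ℕ → F) (hα : ∀ t, α (t + 4) = α t) (hξ : ∀ t, ξ (t + 4) = ξ t)
    (hπ : ∀ t, π (t + 4) = π t) (hα' : ∀ t, α t ≠ α (t + 1)) (hξ' : ∀ t, ξ t ≠ ξ (t + 1))
    (hp : ∀ t, π (t + 1) - π t = α t * ξ t - α (t + 1) * ξ t)
    (S2 : ∑ t ∈ range 4, (α t ^ 2 * ξ t - α (t + 1) ^ 2 * ξ t) = 0)
    (S3 : ∑ t ∈ range 4, (α t ^ 3 * ξ t - α (t + 1) ^ 3 * ξ t) = 0)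
    (SG : ∑ t ∈ range 4, (α t ^ 2 * ξ t * (α t * ξ t + 3 * π t)
      - α (t + 1) ^ 2 * ξ t * (α (t + 1) * ξ t + 3 * π (t + 1))) = 0) : False := by
  simp only [sum_range_succ, sum_range_zero, zero_add] at S2 S3 SG
  have e : α (3 + 1) = α 0 := hα 0
  have e' : α (1 + 1) = α 2 := rfl
  have e'' : α (2 + 1) = α 3 := rfl
  have f : π (3 + 1) = π 0 := hπ 0
  have f' : π (1 + 1) = π 2 := rfl
  have f'' : π (2 + 1) = π 3 := rfl
  rw [e, e', e''] at S2 S3
  rw [e, e', e'', f, f', f''] at SG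
  have k3 : α 3 ≠ α 0 := by have := hα' 3; rwa [e] at this
  have l3 : ξ 3 ≠ ξ 0 := by
    have := hξ' 3
    have g : ξ (3 + 1) = ξ 0 := hξ 0
    rwa [g] at this
  have hp3 : π 0 - π 3 = α 3 * ξ 3 - α 0 * ξ 3 := by have := hp 3; rwa [e, f] at this
  exact alg4 (α 0) (α 1) (α 2) (α 3) (ξ 0) (ξ 1) (ξ 2) (ξ 3) (π 0) (π 1) (π 2) (π 3)
    (hα' 0) (hα' 1) (hα' 2) k3 (hξ' 0) l3 (hp 0) (hp 1) (hp 2) hp3 S2 S3 SG

lemma seq5 (h2 : (2 : F) ≠ 0) (α ξ π : ℕ → F) (hα : ∀ t, α (t + 5) = α t)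
    (hξ : ∀ t, ξ (t + 5) = ξ t)
    (hπ : ∀ t, π (t + 5) = π t) (hα' : ∀ t, α t ≠ α (t + 1)) (hξ' : ∀ t, ξ t ≠ ξ (t + 1))
    (hp : ∀ t, π (t + 1) - π t = α t * ξ t - α (t + 1) * ξ t)
    (S2 : ∑ t ∈ range 5, (α t ^ 2 * ξ t - α (t + 1) ^ 2 * ξ t) = 0)
    (S3 : ∑ t ∈ range 5, (α t ^ 3 * ξ t - α (t + 1) ^ 3 * ξ t) = 0)
    (SG : ∑ t ∈ range 5, (α t ^ 2 * ξ t * (α t * ξ t + 3 * π t)
      - α (t + 1) ^ 2 * ξ t * (α (t + 1) * ξ t + 3 * π (t + 1))) = 0) : False := by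
  simp only [sum_range_succ, sum_range_zero, zero_add] at S2 S3 SG
  have e : α (4 + 1) = α 0 := hα 0
  have e' : α (1 + 1) = α 2 := rfl
  have e'' : α (2 + 1) = α 3 := rfl
  have e3 : α (3 + 1) = α 4 := rfl
  have f : π (4 + 1) = π 0 := hπ 0
  have f' : π (1 + 1) = π 2 := rfl
  have f'' : π (2 + 1) = π 3 := rfl
  have f3 : π (3 + 1) = π 4 := rfl
  rw [e, e', e'', e3] at S2 S3
  rw [e, e', e'', e3, f, f', f'', f3] at SG
  have k3 : α 4 ≠ α 0 := by have := hα' 4; rwa [e] at this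
  have l3 : ξ 4 ≠ ξ 0 := by
    have := hξ' 4
    have g : ξ (4 + 1) = ξ 0 := hξ 0
    rwa [g] at this
  have hp4 : π 0 - π 4 = α 4 * ξ 4 - α 0 * ξ 4 := by have := hp 4; rwa [e, f] at this
  exact alg5 h2 (α 0) (α 1) (α 2) (α 3) (α 4) (ξ 0) (ξ 1) (ξ 2) (ξ 3) (ξ 4)
    (π 0) (π 1) (π 2) (π 3) (π 4)
    (hα' 0) (hα' 1) (hα' 2) (hα' 3) k3 (hξ' 0) (hξ' 1) (hξ' 2) (hξ' 3) l3
    (hp 0) (hp 1) (hp 2) (hp 3) hp4 S2 S3 SG

/-- the closing condition for `π` gives the first power sum -/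
lemma sum_one_of_step (r : ℕ) (α ξ π : ℕ → F) (hπ : ∀ t, π (t + r) = π t)
    (hp : ∀ t, π (t + 1) - π t = α t * ξ t - α (t + 1) * ξ t) :
    ∑ t ∈ range r, (α t * ξ t - α (t + 1) * ξ t) = 0 := by
  rw [← Finset.sum_congr rfl (fun t _ => hp t), Finset.sum_range_sub]
  have := hπ 0
  rw [zero_add] at this
  rw [this, sub_self]

end seq

/-- the embedding of `ZMod s` into `ZMod q` by least residues -/
def cst {s : ℕ} (q : ℕ) (a : ZMod s) : ZMod q := ((a.val : ℕ) : ZMod q)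

lemma cst_injective {s q : ℕ} [NeZero s] (h : s ≤ q) :
    Function.Injective (cst q : ZMod s → ZMod q) := by
  intro a b hab
  have ha := lt_of_lt_of_le (ZMod.val_lt a) h
  have hb := lt_of_lt_of_le (ZMod.val_lt b) h
  have := congrArg ZMod.val hab
  unfold cst at this
  rw [ZMod.val_natCast_of_lt ha, ZMod.val_natCast_of_lt hb] at this
  exact ZMod.val_injective s this

lemma card_vertices (s Q N : ℕ) [NeZero s] [NeZero Q] [NeZero N] :
    Nat.card ((ZMod s × ZMod Q × ZMod N) ⊕ (ZMod s × ZMod Q × ZMod N)) = 2 * (s * Q * N) := by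
  rw [Nat.card_sum, Nat.card_prod, Nat.card_prod, Nat.card_zmod, Nat.card_zmod, Nat.card_zmod]
  ring

/-- there is a `d`-regular graph on `m` vertices without closed non-backtracking walks of
length `3 ≤ L < 2 * k + 2`. -/
def Has (m d k : ℕ) : Prop :=
  ∃ (W : Type) (_ : Finite W) (G : SimpleGraph W), Nat.card W = m ∧ RegN G d ∧
    ∀ L, 3 ≤ L → L < 2 * k + 2 → NoClosed G L

lemma Has.add {m m' d k : ℕ} (h : Has m d k) (h' : Has m' d k) : Has (m + m') d k := by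
  obtain ⟨W, _, G, hW, hr, hL⟩ := h
  obtain ⟨W', _, G', hW', hr', hL'⟩ := h'
  refine ⟨W ⊕ W', inferInstance, G.sum G', ?_, regN_sum G G' d hr hr', ?_⟩
  · rw [Nat.card_sum, hW, hW']
  · intro L h1 h2
    exact noClosed_sum G G' L (hL L h1 h2) (hL' L h1 h2)

lemma has_of_lift {s Q : ℕ} (D : LiftData s Q) (d N k : ℕ) [NeZero s] [NeZero Q] [NeZero N]
    (hd : d ≤ s) (h : ∀ r, 2 ≤ r → r ≤ k → NoClosed (bip (D.R d N)) (2 * r)) :
    Has (2 * (s * Q * N)) d k := by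
  refine ⟨_, inferInstance, bip (D.R d N), card_vertices s Q N, D.regN d N hd, ?_⟩
  intro L h3 hk
  rcases Nat.even_or_odd' L with ⟨r, rfl | rfl⟩
  · exact h r (by omega) (by omega)
  · exact bip_noClosed_odd r

/-- girth at least four -/
lemma has_one (d s : ℕ) [NeZero s] (hd : d ≤ s) : Has (2 * s) d 1 := by
  have := has_of_lift (s := s) (Q := 1) ⟨fun _ _ => 0, fun _ _ _ => 0⟩ d 1 1 hd (by
    intro r h1 h2; omega)
  simpa using this

/-- girth at least six -/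
lemma has_two (d s q N : ℕ) [NeZero s] [Fact q.Prime] (hd : d ≤ s) (hq : s ≤ q)
    (hN : 2 * q ≤ N) : Has (2 * (s * N)) d 2 := by
  have hq0 : 0 < q := (Fact.out : q.Prime).pos
  have : NeZero q := ⟨hq0.ne'⟩
  have : NeZero N := ⟨by omega⟩
  have := has_of_lift (s := s) (Q := 1)
    ⟨fun _ _ => 0, fun a x _ => zv (cst q a * cst q x)⟩ d N 2 hd (by
    intro r h1 h2
    obtain rfl : r = 2 := by omega
    apply lift_noClosed
    intro a x p ha hx hp ha' hx' hp' hcl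
    have h0 := closeSum_eq_zero (fun (a x : ZMod s) (_ : ZMod 1) => zv (cst q a * cst q x))
      2 N ((q : ℤ) - 1) a x p
      (fun _ _ _ => zv_nonneg _) (fun _ _ _ => zv_le _) (by push_cast; omega) hcl
    have h1 := closeSum_cast (fun (a x : ZMod s) (_ : ZMod 1) => cst q a * cst q x) 2 a x p h0
    refine seq2 (fun t => cst q (a t)) (fun t => cst q (x t)) ?_ ?_ ?_ h1
    · intro t; simp only [ha t]
    · intro t ht; exact ha' t (cst_injective hq ht)
    · intro t ht; exact hx' t (cst_injective hq ht))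
  simpa using this

/-- girth at least eight -/
lemma has_three (d s q N : ℕ) [NeZero s] [Fact q.Prime] (hd : d ≤ s) (hq : s ≤ q)
    (hN : 9 * q ^ 2 ≤ N) : Has (2 * (s * N)) d 3 := by
  have hq0 : 0 < q := (Fact.out : q.Prime).pos
  have : NeZero q := ⟨hq0.ne'⟩
  have : NeZero N := ⟨by
    have : 0 < q ^ 2 := by positivity
    omega⟩
  have := has_of_lift (s := s) (Q := 1)
    ⟨fun _ _ => 0, fun a x _ => zv (cst q a * cst q x) + (3 * q : ℤ) * zv (cst q a ^ 2 * cst q x)⟩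
    d N 3 hd (by
    intro r h1 h2
    apply lift_noClosed
    intro a x p ha hx hp ha' hx' hp' hcl
    have hqz : (1 : ℤ) ≤ q := by exact_mod_cast hq0
    have hNz : (9 : ℤ) * q ^ 2 ≤ N := by exact_mod_cast hN
    have hrz : (r : ℤ) ≤ 3 := by exact_mod_cast h2
    have hr0 : (0 : ℤ) ≤ r := by positivity
    have h0 := closeSum_eq_zero (fun (a x : ZMod s) (_ : ZMod 1) => zv (cst q a * cst q x)
        + (3 * q : ℤ) * zv (cst q a ^ 2 * cst q x))
      r N (((q : ℤ) - 1) + 3 * q * ((q : ℤ) - 1)) a x p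
      (fun a x _ => by
        have h1 := zv_nonneg (cst q a * cst q x)
        have h2 := zv_nonneg (cst q a ^ 2 * cst q x)
        positivity)
      (fun a x _ => by
        have h1 := zv_le (cst q a * cst q x)
        have h2 := zv_le (cst q a ^ 2 * cst q x)
        have h3 : (3 * q : ℤ) * zv (cst q a ^ 2 * cst q x) ≤ 3 * q * ((q : ℤ) - 1) :=
          mul_le_mul_of_nonneg_left h2 (by positivity)
        linarith)
      (by nlinarith) hcl
    rw [closeSum_add_mul] at h0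
    have hb := abs_closeSum_le (fun (a x : ZMod s) (_ : ZMod 1) => zv (cst q a * cst q x)) r
      ((q : ℤ) - 1) a x p (fun _ _ _ => zv_nonneg _) (fun _ _ _ => zv_le _)
    obtain ⟨e1, e2⟩ := digits h0 (lt_of_le_of_lt hb (by nlinarith))
    have S1 := closeSum_cast (fun (a x : ZMod s) (_ : ZMod 1) => cst q a * cst q x) r a x p e1
    have S2 := closeSum_cast (fun (a x : ZMod s) (_ : ZMod 1) => cst q a ^ 2 * cst q x) r a x p e2
    have hα' : ∀ t, cst q (a t) ≠ cst q (a (t + 1)) := fun t ht => ha' t (cst_injective hq ht)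
    have hξ' : ∀ t, cst q (x t) ≠ cst q (x (t + 1)) := fun t ht => hx' t (cst_injective hq ht)
    have hα : ∀ t, cst q (a (t + r)) = cst q (a t) := fun t => by rw [ha t]
    have hr : r = 2 ∨ r = 3 := by omega
    rcases hr with rfl | rfl
    · exact seq2 (fun t => cst q (a t)) (fun t => cst q (x t)) hα hα' hξ' S1
    · exact seq3 (fun t => cst q (a t)) (fun t => cst q (x t)) hα hα' hξ' S1 S2)
  simpa using this

/-- girth at least twelve -/
lemma has_five (d s q N : ℕ) [NeZero s] [Fact q.Prime] (hd : d ≤ s) (hq : s ≤ q) (hq2 : q ≠ 2)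
    (hN : 125 * q ^ 3 ≤ N) : Has (2 * (s * q * N)) d 5 := by
  have hq0 : 0 < q := (Fact.out : q.Prime).pos
  have : NeZero q := ⟨hq0.ne'⟩
  have : NeZero N := ⟨by
    have : 0 < q ^ 3 := by positivity
    omega⟩
  have h2 : (2 : ZMod q) ≠ 0 := by
    intro h
    have h' : ((2 : ℕ) : ZMod q) = 0 := by exact_mod_cast h
    rw [ZMod.natCast_eq_zero_iff] at h'
    have := Nat.le_of_dvd (by norm_num) h'
    have h1 := (Fact.out : q.Prime).two_le
    omega
  refine has_of_lift (s := s) (Q := q)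
    ⟨fun a x => cst q a * cst q x, fun a x p => zv (cst q a ^ 2 * cst q x)
      + (5 * q : ℤ) * (zv (cst q a ^ 3 * cst q x)
      + (5 * q : ℤ) * zv (cst q a ^ 2 * cst q x * (cst q a * cst q x + 3 * p)))⟩
    d N 5 hd ?_
  intro r h1 h2'
  apply lift_noClosed
  intro a x p ha hx hp ha' hx' hp' hcl
  have hqz : (1 : ℤ) ≤ q := by exact_mod_cast hq0
  have hNz : (125 : ℤ) * q ^ 3 ≤ N := by exact_mod_cast hN
  have hrz : (r : ℤ) ≤ 5 := by exact_mod_cast h2'
  have hr0 : (0 : ℤ) ≤ r := by positivity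
  have h0 := closeSum_eq_zero (fun (a x : ZMod s) (p : ZMod q) => zv (cst q a ^ 2 * cst q x)
      + (5 * q : ℤ) * (zv (cst q a ^ 3 * cst q x)
      + (5 * q : ℤ) * zv (cst q a ^ 2 * cst q x * (cst q a * cst q x + 3 * p))))
    r N (((q : ℤ) - 1) + 5 * q * (((q : ℤ) - 1) + 5 * q * ((q : ℤ) - 1))) a x p
    (fun a x p => by
      have h1 := zv_nonneg (cst q a ^ 2 * cst q x)
      have h2 := zv_nonneg (cst q a ^ 3 * cst q x)
      have h3 := zv_nonneg (cst q a ^ 2 * cst q x * (cst q a * cst q x + 3 * p))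
      positivity)
    (fun a x p => by
      have h1 := zv_le (cst q a ^ 2 * cst q x)
      have h2 := zv_le (cst q a ^ 3 * cst q x)
      have h3 := zv_le (cst q a ^ 2 * cst q x * (cst q a * cst q x + 3 * p))
      have h4 : (5 * q : ℤ) * zv (cst q a ^ 2 * cst q x * (cst q a * cst q x + 3 * p))
          ≤ 5 * q * ((q : ℤ) - 1) :=
        mul_le_mul_of_nonneg_left h3 (by positivity)
      have h5 : (5 * q : ℤ) * (zv (cst q a ^ 3 * cst q x)
          + (5 * q : ℤ) * zv (cst q a ^ 2 * cst q x * (cst q a * cst q x + 3 * p)))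
          ≤ 5 * q * (((q : ℤ) - 1) + 5 * q * ((q : ℤ) - 1)) :=
        mul_le_mul_of_nonneg_left (by linarith) (by positivity)
      linarith)
    (by
      have hV : ((q : ℤ) - 1) + 5 * q * (((q : ℤ) - 1) + 5 * q * ((q : ℤ) - 1)) < 25 * q ^ 3 := by
        nlinarith
      have hV0 : 0 ≤ ((q : ℤ) - 1) + 5 * q * (((q : ℤ) - 1) + 5 * q * ((q : ℤ) - 1)) := by
        have : 0 ≤ (q : ℤ) - 1 := by linarith
        positivity
      have := mul_le_mul_of_nonneg_right hrz hV0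
      linarith) hcl
  rw [closeSum_add_mul (fun (a x : ZMod s) (p : ZMod q) => zv (cst q a ^ 2 * cst q x))
    (fun (a x : ZMod s) (p : ZMod q) => zv (cst q a ^ 3 * cst q x)
      + (5 * q : ℤ) * zv (cst q a ^ 2 * cst q x * (cst q a * cst q x + 3 * p)))] at h0
  have hb : (r : ℤ) * ((q : ℤ) - 1) < 5 * q := by nlinarith
  have hb1 := abs_closeSum_le (fun (a x : ZMod s) (p : ZMod q) => zv (cst q a ^ 2 * cst q x)) r
    ((q : ℤ) - 1) a x p (fun _ _ _ => zv_nonneg _) (fun _ _ _ => zv_le _)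
  obtain ⟨e1, e2⟩ := digits h0 (lt_of_le_of_lt hb1 hb)
  rw [closeSum_add_mul (fun (a x : ZMod s) (p : ZMod q) => zv (cst q a ^ 3 * cst q x))
    (fun (a x : ZMod s) (p : ZMod q) =>
      zv (cst q a ^ 2 * cst q x * (cst q a * cst q x + 3 * p)))] at e2
  have hb2 := abs_closeSum_le (fun (a x : ZMod s) (p : ZMod q) => zv (cst q a ^ 3 * cst q x)) r
    ((q : ℤ) - 1) a x p (fun _ _ _ => zv_nonneg _) (fun _ _ _ => zv_le _)
  obtain ⟨e3, e4⟩ := digits e2 (lt_of_le_of_lt hb2 hb)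
  have S2 := closeSum_cast (fun (a x : ZMod s) (p : ZMod q) => cst q a ^ 2 * cst q x) r a x p e1
  have S3 := closeSum_cast (fun (a x : ZMod s) (p : ZMod q) => cst q a ^ 3 * cst q x) r a x p e3
  have SG := closeSum_cast (fun (a x : ZMod s) (p : ZMod q) =>
    cst q a ^ 2 * cst q x * (cst q a * cst q x + 3 * p)) r a x p e4
  have hα' : ∀ t, cst q (a t) ≠ cst q (a (t + 1)) := fun t ht => ha' t (cst_injective hq ht)
  have hξ' : ∀ t, cst q (x t) ≠ cst q (x (t + 1)) := fun t ht => hx' t (cst_injective hq ht)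
  have hα : ∀ t, cst q (a (t + r)) = cst q (a t) := fun t => by rw [ha t]
  have hξ : ∀ t, cst q (x (t + r)) = cst q (x t) := fun t => by rw [hx t]
  have S1 := sum_one_of_step r (fun t => cst q (a t)) (fun t => cst q (x t)) p hp hp'
  have hr : r = 2 ∨ r = 3 ∨ r = 4 ∨ r = 5 := by omega
  rcases hr with rfl | rfl | rfl | rfl
  · exact seq2 (fun t => cst q (a t)) (fun t => cst q (x t)) hα hα' hξ' S1
  · exact seq3 (fun t => cst q (a t)) (fun t => cst q (x t)) hα hα' hξ' S1 S2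
  · exact seq4 (fun t => cst q (a t)) (fun t => cst q (x t)) p hα hξ hp hα' hξ' hp' S2 S3 SG
  · exact seq5 h2 (fun t => cst q (a t)) (fun t => cst q (x t)) p hα hξ hp hα' hξ' hp' S2 S3 SG

end Pool.Agent.Helper75
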