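import Pool.Agent.Helper75.GirthBasic

set_option autoImplicit false

namespace Pool.Agent.Helper75

open SimpleGraph

/-- The bipartite graph with parts `P`, `L` and adjacency `R`. -/
def bip {P L : Type*} (R : P → L → Prop) : SimpleGraph (P ⊕ L) where
  Adj
    | Sum.inl u, Sum.inr w => R u w
    | Sum.inr w, Sum.inl u => R u w
    | _, _ => False
  symm := ⟨by rintro (u | u) (w | w) h <;> exact h⟩
  loopless := ⟨by rintro (u | u) h <;> exact h⟩

section
variable {P L : Type*} {R : P → L → Prop}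

lemma bip_adj_lr {u : P} {w : L} : (bip R).Adj (Sum.inl u) (Sum.inr w) ↔ R u w := Iff.rfl
lemma bip_adj_rl {u : P} {w : L} : (bip R).Adj (Sum.inr w) (Sum.inl u) ↔ R u w := Iff.rfl
lemma bip_adj_ll {u w : P} : ¬ (bip R).Adj (Sum.inl u) (Sum.inl w) := fun h => h
lemma bip_adj_rr {u w : L} : ¬ (bip R).Adj (Sum.inr u) (Sum.inr w) := fun h => h

lemma bip_alt (c : ℕ → P ⊕ L) (hadj : ∀ i, (bip R).Adj (c i) (c (i + 1)))
    (h0 : ∃ u, c 0 = Sum.inl u) :
    (∀ t, ∃ u, c (2 * t) = Sum.inl u) ∧ (∀ t, ∃ w, c (2 * t + 1) = Sum.inr w) := by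
  have step : ∀ i, (∃ u, c i = Sum.inl u) → ∃ w, c (i + 1) = Sum.inr w := by
    rintro i ⟨u, hu⟩
    have h := hadj i
    rcases hc : c (i + 1) with z | z
    · rw [hu, hc] at h; exact (bip_adj_ll h).elim
    · exact ⟨z, rfl⟩
  have step' : ∀ i, (∃ u, c i = Sum.inr u) → ∃ w, c (i + 1) = Sum.inl w := by
    rintro i ⟨u, hu⟩
    have h := hadj i
    rcases hc : c (i + 1) with z | z
    · exact ⟨z, rfl⟩
    · rw [hu, hc] at h; exact (bip_adj_rr h).elim
  have h1 : ∀ t, ∃ u, c (2 * t) = Sum.inl u := by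
    intro t
    induction t with
    | zero => simpa using h0
    | succ n ih =>
      have := step' _ (step _ ih)
      have e : 2 * (n + 1) = 2 * n + 1 + 1 := by ring
      rw [e]; exact this
  exact ⟨h1, fun t => step _ (h1 t)⟩

lemma bip_noClosed_odd (r : ℕ) : NoClosed (bip R) (2 * r + 1) := by
  intro c hper hadj _
  rcases h0 : c 0 with u | w
  · obtain ⟨_, h2⟩ := bip_alt c hadj ⟨u, h0⟩
    obtain ⟨w, hw⟩ := h2 r
    have := hper 0
    rw [zero_add, hw, h0] at this
    exact absurd this (by simp)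
  · have hadj' : ∀ i, (bip R).Adj (c (i + 1)) (c (i + 1 + 1)) := fun i => hadj (i + 1)
    have h1 : ∃ u, c (0 + 1) = Sum.inl u := by
      have h := hadj 0
      rcases hc : c (0 + 1) with z | z
      · exact ⟨z, rfl⟩
      · rw [h0, hc] at h; exact (bip_adj_rr h).elim
    obtain ⟨h3, _⟩ := bip_alt (fun i => c (i + 1)) hadj' h1
    obtain ⟨v, hv⟩ := h3 r
    have := hper 0
    have hv' : c (2 * r + 1) = Sum.inl v := hv
    rw [zero_add, hv', h0] at this
    exact absurd this (by simp)

lemma bip_noClosed_even (r : ℕ)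
    (h : ∀ (u : ℕ → P) (w : ℕ → L), (∀ t, u (t + r) = u t) → (∀ t, w (t + r) = w t) →
      (∀ t, R (u t) (w t)) → (∀ t, R (u (t + 1)) (w t)) → (∀ t, u t ≠ u (t + 1)) →
      (∀ t, w t ≠ w (t + 1)) → False) : NoClosed (bip R) (2 * r) := by
  have main : ∀ c : ℕ → P ⊕ L, (∃ u, c 0 = Sum.inl u) → (∀ i, c (i + 2 * r) = c i) →
      (∀ i, (bip R).Adj (c i) (c (i + 1))) → (∀ i, c i ≠ c (i + 2)) → False := by
    intro c h0 hper hadj hnb
    obtain ⟨h1, h2⟩ := bip_alt c hadj h0
    choose u hu using h1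
    choose w hw using h2
    refine h u w ?_ ?_ ?_ ?_ ?_ ?_
    · intro t
      have := hper (2 * t)
      have e : 2 * t + 2 * r = 2 * (t + r) := by ring
      rw [e, hu, hu] at this
      exact Sum.inl_injective this
    · intro t
      have := hper (2 * t + 1)
      have e : 2 * t + 1 + 2 * r = 2 * (t + r) + 1 := by ring
      rw [e, hw, hw] at this
      exact Sum.inr_injective this
    · intro t
      have := hadj (2 * t)
      rw [hu, hw] at this
      exact bip_adj_lr.mp this
    · intro t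
      have := hadj (2 * t + 1)
      have e : 2 * t + 1 + 1 = 2 * (t + 1) := by ring
      rw [e, hu, hw] at this
      exact bip_adj_rl.mp this
    · intro t ht
      apply hnb (2 * t)
      have e : 2 * t + 2 = 2 * (t + 1) := by ring
      rw [e, hu, hu, ht]
    · intro t ht
      apply hnb (2 * t + 1)
      have e : 2 * t + 1 + 2 = 2 * (t + 1) + 1 := by ring
      rw [e, hw, hw, ht]
  intro c hper hadj hnb
  rcases h0 : c 0 with u | w
  · exact main c ⟨u, h0⟩ hper hadj hnb
  · have h1 : ∃ u, c (0 + 1) = Sum.inl u := by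
      have h := hadj 0
      rcases hc : c (0 + 1) with z | z
      · exact ⟨z, rfl⟩
      · rw [h0, hc] at h; exact (bip_adj_rr h).elim
    refine main (fun i => c (i + 1)) h1 ?_ (fun i => hadj (i + 1)) ?_
    · intro i
      have := hper (i + 1)
      have e : i + 2 * r + 1 = i + 1 + 2 * r := by ring
      simp only [e, this]
    · intro i
      exact hnb (i + 1)

end

/-- Data of a lift of a circulant bipartite base graph: labels `lam` modulo `Q` and integer
voltages `v`. -/
structure LiftData (s Q : ℕ) where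
  lam : ZMod s → ZMod s → ZMod Q
  v : ZMod s → ZMod s → ZMod Q → ℤ

/-- incidence relation of the lift -/
def LiftData.R {s Q : ℕ} (D : LiftData s Q) (d N : ℕ)
    (u w : ZMod s × ZMod Q × ZMod N) : Prop :=
  (w.1 - u.1).val < d ∧ w.2.1 = u.2.1 + D.lam u.1 w.1 ∧
    w.2.2 = u.2.2 + ((D.v u.1 w.1 u.2.1 : ℤ) : ZMod N)

lemma card_val_lt (s d : ℕ) [NeZero s] (hd : d ≤ s) :
    Nat.card {x : ZMod s // x.val < d} = d := by
  have : Nat.card (Fin d) = d := by simp
  conv_rhs => rw [← this]
  refine Nat.card_congr ?_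
  refine Equiv.ofBijective (fun x : {x : ZMod s // x.val < d} => (⟨x.1.val, x.2⟩ : Fin d))
    ⟨?_, ?_⟩
  · intro x y hxy
    have : x.1.val = y.1.val := congrArg Fin.val hxy
    exact Subtype.ext (ZMod.val_injective s this)
  · intro y
    refine ⟨⟨((y : ℕ) : ZMod s), ?_⟩, ?_⟩
    · rw [ZMod.val_natCast_of_lt (lt_of_lt_of_le y.2 hd)]; exact y.2
    · apply Fin.ext
      simp only
      rw [ZMod.val_natCast_of_lt (lt_of_lt_of_le y.2 hd)]

lemma LiftData.regN {s Q : ℕ} (D : LiftData s Q) (d N : ℕ) [NeZero s] (hd : d ≤ s) :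
    RegN (bip (D.R d N)) d := by
  rintro (u | w)
  · conv_rhs => rw [← card_val_lt s d hd]
    refine Nat.card_congr (Equiv.symm ?_)
    refine Equiv.ofBijective (fun x : {x : ZMod s // x.val < d} =>
      (⟨Sum.inr (u.1 + x.1, u.2.1 + D.lam u.1 (u.1 + x.1),
        u.2.2 + ((D.v u.1 (u.1 + x.1) u.2.1 : ℤ) : ZMod N)), by
          refine bip_adj_lr.mpr ⟨?_, rfl, rfl⟩
          simpa using x.2⟩ : (bip (D.R d N)).neighborSet (Sum.inl u))) ⟨?_, ?_⟩
    · intro x y hxy
      have h1 := Sum.inr_injective (congrArg Subtype.val hxy)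
      have h2 := congrArg Prod.fst h1
      simp only [add_right_inj] at h2
      exact Subtype.ext h2
    · rintro ⟨x | x, hx⟩
      · exact (bip_adj_ll (R := D.R d N) (u := u) (w := x) hx).elim
      · have hx' := bip_adj_lr.mp hx
        obtain ⟨h1, h2, h3⟩ := hx'
        refine ⟨⟨x.1 - u.1, h1⟩, ?_⟩
        apply Subtype.ext
        simp only
        congr 1
        obtain ⟨x1, x2, x3⟩ := x
        simp only [add_sub_cancel] at h2 h3 ⊢
        rw [h2, h3]
  · conv_rhs => rw [← card_val_lt s d hd]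
    refine Nat.card_congr (Equiv.symm ?_)
    refine Equiv.ofBijective (fun x : {x : ZMod s // x.val < d} =>
      (⟨Sum.inl (w.1 - x.1, w.2.1 - D.lam (w.1 - x.1) w.1,
        w.2.2 - ((D.v (w.1 - x.1) w.1 (w.2.1 - D.lam (w.1 - x.1) w.1) : ℤ) : ZMod N)), by
          refine bip_adj_rl.mpr ⟨?_, ?_, ?_⟩
          · simpa using x.2
          · simp
          · simp⟩ : (bip (D.R d N)).neighborSet (Sum.inr w))) ⟨?_, ?_⟩
    · intro x y hxy
      have h1 := Sum.inl_injective (congrArg Subtype.val hxy)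
      have h2 := congrArg Prod.fst h1
      simp only [sub_right_inj] at h2
      exact Subtype.ext h2
    · rintro ⟨x | x, hx⟩
      · have hx' := bip_adj_rl.mp hx
        obtain ⟨h1, h2, h3⟩ := hx'
        refine ⟨⟨w.1 - x.1, h1⟩, ?_⟩
        apply Subtype.ext
        simp only
        congr 1
        obtain ⟨x1, x2, x3⟩ := x
        simp only [sub_sub_cancel] at h2 h3 ⊢
        rw [h3, h2]
        simp
      · exact (bip_adj_rr (R := D.R d N) (u := w) (w := x) hx).elim

end Pool.Agent.Helper75
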