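import Pool.Agent.Helper75.GirthInst

set_option autoImplicit false

namespace Pool.Agent.Helper75

open SimpleGraph Finset

/-- every large integer is a combination of two coprime numbers with prescribed lower bounds
on the coefficients -/
lemma decomp (A1 A2 n1 n2 M : ℕ) (h2 : 0 < A2) (hc : Nat.Coprime A1 A2)
    (h : A1 * n1 + A2 * n2 + A1 * A2 ≤ M) (h1 : 0 < A1) :
    ∃ N1 N2, n1 ≤ N1 ∧ n2 ≤ N2 ∧ M = A1 * N1 + A2 * N2 := by
  set M' := M - (A1 * n1 + A2 * n2) with hM'
  have hM : M = A1 * n1 + A2 * n2 + M' := by omega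
  have hM'' : A1 * A2 ≤ M' := by omega
  obtain ⟨z, hz1, hz2⟩ := Nat.chineseRemainder hc 0 M'
  have hzlt := Nat.chineseRemainder_lt_mul hc 0 M' h1.ne' h2.ne'
  obtain ⟨z, ⟨hz1, hz2⟩, hzlt⟩ : ∃ z, (z ≡ 0 [MOD A1] ∧ z ≡ M' [MOD A2]) ∧ z < A1 * A2 :=
    ⟨_, (Nat.chineseRemainder hc 0 M').2, hzlt⟩
  obtain ⟨x, hx⟩ := (Nat.modEq_zero_iff_dvd).mp hz1
  have hle : z ≤ M' := by omega
  obtain ⟨y, hy⟩ := (Nat.modEq_iff_dvd' hle).mp hz2
  refine ⟨n1 + x, n2 + y, by omega, by omega, ?_⟩
  have : M' = A1 * x + A2 * y := by omega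
  rw [hM, this]
  ring

lemma has_zero (n k : ℕ) : Has n 0 k := by
  refine ⟨Fin n, inferInstance, ⊥, by simp, ?_, ?_⟩
  · intro v
    simp [RegN, SimpleGraph.neighborSet]
  · intro L _ _ c _ h _
    exact h 0

/-- all even orders -/
theorem has_all (d n k : ℕ) (hn : Even n) (hk : k = 1 ∨ k = 2 ∨ k = 3 ∨ k = 5)
    (h : 10 ^ 8 * d ^ k ≤ n) : Has n d k := by
  rcases Nat.eq_zero_or_pos d with rfl | hd
  · exact has_zero n k
  obtain ⟨M, hM⟩ := hn
  have hM2 : n = 2 * M := by omega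
  subst hM2
  rcases hk with rfl | rfl | rfl | rfl
  · have : d ≤ M := by
      rw [pow_one] at h; omega
    have : NeZero M := ⟨by omega⟩
    exact has_one d M (by assumption)
  · -- girth six
    obtain ⟨q, hq, hq1, hq2⟩ := Nat.exists_prime_lt_and_le_two_mul (d + 1) (by omega)
    have hqd : q ≤ 4 * d := by omega
    have hbound : d * (2 * q) + (d + 1) * (2 * q) + d * (d + 1) ≤ M := by
      have h1 : d + 1 ≤ 2 * d := by omega
      have e1 : d * (2 * q) ≤ d * (2 * (4 * d)) := by gcongr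
      have e2 : (d + 1) * (2 * q) ≤ (2 * d) * (2 * (4 * d)) := by gcongr
      have e3 : d * (d + 1) ≤ d * (2 * d) := by gcongr
      nlinarith
    obtain ⟨N1, N2, h1, h2, rfl⟩ := decomp d (d + 1) (2 * q) (2 * q) M (by omega)
      (by simp) hbound hd
    have : Fact q.Prime := ⟨hq⟩
    have : NeZero d := ⟨by omega⟩
    have a1 := has_two d d q N1 le_rfl (by omega) h1
    have a2 := has_two d (d + 1) q N2 (by omega) (by omega) h2
    have := a1.add a2
    rwa [← mul_add] at this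
  · -- girth eight
    obtain ⟨q, hq, hq1, hq2⟩ := Nat.exists_prime_lt_and_le_two_mul (d + 1) (by omega)
    have hqd : q ≤ 4 * d := by omega
    have hbound : d * (9 * q ^ 2) + (d + 1) * (9 * q ^ 2) + d * (d + 1) ≤ M := by
      have h1 : d + 1 ≤ 2 * d := by omega
      have e1 : d * (9 * q ^ 2) ≤ d * (9 * (4 * d) ^ 2) := by gcongr
      have e2 : (d + 1) * (9 * q ^ 2) ≤ (2 * d) * (9 * (4 * d) ^ 2) := by gcongr
      have e3 : d * (d + 1) ≤ d * (2 * d) * d := by
        calc d * (d + 1) ≤ d * (2 * d) := by gcongr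
          _ ≤ d * (2 * d) * d := Nat.le_mul_of_pos_right _ hd
      nlinarith
    obtain ⟨N1, N2, h1, h2, rfl⟩ := decomp d (d + 1) (9 * q ^ 2) (9 * q ^ 2) M (by omega)
      (by simp) hbound hd
    have : Fact q.Prime := ⟨hq⟩
    have : NeZero d := ⟨by omega⟩
    have a1 := has_three d d q N1 le_rfl (by omega) h1
    have a2 := has_three d (d + 1) q N2 (by omega) (by omega) h2
    have := a1.add a2
    rwa [← mul_add] at this
  · -- girth twelve
    obtain ⟨q1, hq1, hq1l, hq1u⟩ := Nat.exists_prime_lt_and_le_two_mul (d + 4) (by omega)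
    obtain ⟨q2, hq2, hq2l, hq2u⟩ := Nat.exists_prime_lt_and_le_two_mul q1 (by omega)
    have hqd1 : q1 ≤ 10 * d := by omega
    have hqd2 : q2 ≤ 20 * d := by omega
    have hc : Nat.Coprime (d * q1) ((d + 1) * q2) := by
      apply Nat.Coprime.mul_left
      · apply Nat.Coprime.mul_right
        · simp
        · exact (Nat.coprime_of_lt_prime (by omega) (by omega) hq2).symm
      · apply Nat.Coprime.mul_right
        · exact Nat.coprime_of_lt_prime (by omega) (by omega) hq1
        · exact (Nat.coprime_primes hq1 hq2).mpr (by omega)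
    have hbound : d * q1 * (125 * q1 ^ 3) + (d + 1) * q2 * (125 * q2 ^ 3)
        + d * q1 * ((d + 1) * q2) ≤ M := by
      have h1 : d + 1 ≤ 2 * d := by omega
      have e1 : d * q1 * (125 * q1 ^ 3) ≤ d * (10 * d) * (125 * (10 * d) ^ 3) := by gcongr
      have e2 : (d + 1) * q2 * (125 * q2 ^ 3) ≤ (2 * d) * (20 * d) * (125 * (20 * d) ^ 3) := by
        gcongr
      have e3 : d * q1 * ((d + 1) * q2) ≤ d * (10 * d) * ((2 * d) * (20 * d)) * d := by
        calc d * q1 * ((d + 1) * q2) ≤ d * (10 * d) * ((2 * d) * (20 * d)) := by gcongr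
          _ ≤ d * (10 * d) * ((2 * d) * (20 * d)) * d := Nat.le_mul_of_pos_right _ hd
      have t1 : d * (10 * d) * (125 * (10 * d) ^ 3) = 1250000 * d ^ 5 := by ring
      have t2 : (2 * d) * (20 * d) * (125 * (20 * d) ^ 3) = 40000000 * d ^ 5 := by ring
      have t3 : d * (10 * d) * ((2 * d) * (20 * d)) * d = 400 * d ^ 5 := by ring
      rw [t1] at e1
      rw [t2] at e2
      rw [t3] at e3
      omega
    obtain ⟨N1, N2, h1, h2, rfl⟩ := decomp (d * q1) ((d + 1) * q2) (125 * q1 ^ 3)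
      (125 * q2 ^ 3) M (Nat.mul_pos (by omega) (by omega)) hc hbound
      (Nat.mul_pos hd (by omega))
    have : Fact q1.Prime := ⟨hq1⟩
    have : Fact q2.Prime := ⟨hq2⟩
    have : NeZero d := ⟨by omega⟩
    have a1 := has_five d d q1 N1 le_rfl (by omega) (by omega) h1
    have a2 := has_five d (d + 1) q2 N2 (by omega) (by omega) (by omega) h2
    have := a1.add a2
    rwa [← mul_add] at this

end Pool.Agent.Helper75
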